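import Pool.Agent.Lib.lead.CXGraphRed

/-!
# Total domination and sub-total domination: definitions and basic facts
-/

namespace Pool.Agent.Run7.h878.TD

open Finset

variable {V : Type} [Fintype V]

/-- every vertex of the graph (including those of `D`) has a neighbour in `D` -/
def IsTotalDom (G : SimpleGraph V) (D : Finset V) : Prop := ∀ v, ∃ u ∈ D, G.Adj v u

/-- there are no isolated vertices -/
def NoIsolated (G : SimpleGraph V) : Prop := ∀ v, ∃ u, G.Adj v u

/-- the total domination number: the least size of a total dominating set -/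
noncomputable def totalDom (G : SimpleGraph V) : ℕ := sInf {k | ∃ D : Finset V, IsTotalDom G D ∧ D.card = k}

open Classical in
/-- the degree sequence in non-increasing order -/
noncomputable def degSeq (G : SimpleGraph V) : List ℕ := (univ.val.map fun v => G.degree v).sort (· ≥ ·)

/-- the sub-total domination number: the least `k` such that the sum of the `k` largest degrees is at least the
number of vertices -/
noncomputable def subTotal (G : SimpleGraph V) : ℕ := sInf {k | Fintype.card V ≤ ((degSeq G).take k).sum}

/-! ### sums of the largest entries of a list -/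

theorem top_le (l : List ℕ) (k t : ℕ) : (l.take k).sum ≤ k * t + (l.map (· - t)).sum := by
  induction l generalizing k with
  | nil => simp
  | cons x l ih =>
    cases k with
    | zero => simp
    | succ k =>
      have := ih k
      simp only [List.take_succ_cons, List.sum_cons, List.map_cons, Nat.succ_mul]
      omega

theorem top_ge {l : List ℕ} (hl : l.Pairwise (· ≥ ·)) (k : ℕ) :
    ∃ t, t ≤ l.headD 0 ∧ k * t + (l.map (· - t)).sum ≤ (l.take k).sum := by
  induction l generalizing k with
  | nil => exact ⟨0, by simp⟩
  | cons x l ih =>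
    rw [List.pairwise_cons] at hl
    cases k with
    | zero =>
      refine ⟨x, by simp, ?_⟩
      have : (l.map (· - x)).sum = 0 := by
        rw [List.sum_eq_zero_iff]
        intro y hy
        obtain ⟨z, hz, rfl⟩ := List.mem_map.1 hy
        have := hl.1 z hz
        omega
      simp [this]
    | succ k =>
      obtain ⟨t, h1, h2⟩ := ih hl.2 k
      have h3 : t ≤ x := by
        cases l with
        | nil => simp at h1; omega
        | cons y l => exact h1.trans (hl.1 y (by simp))
      refine ⟨t, by simpa using h3, ?_⟩
      simp only [List.take_succ_cons, List.sum_cons, List.map_cons, Nat.succ_mul]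
      omega

/-- the sum of a sub-multiset with at most `k` elements is at most the sum of the `k` largest entries -/
theorem sum_le_top {l : List ℕ} (hl : l.Pairwise (· ≥ ·)) {s : Multiset ℕ} (hs : s ≤ (l : Multiset ℕ)) {k : ℕ}
    (hk : Multiset.card s ≤ k) : s.sum ≤ (l.take k).sum := by
  obtain ⟨t, -, h⟩ := top_ge hl k
  refine le_trans ?_ h
  have h1 : ∀ m : Multiset ℕ, m.sum ≤ Multiset.card m * t + (m.map (· - t)).sum := fun m => by
    induction m using Multiset.induction with
    | empty => simp
    | cons a m ih => simp only [Multiset.sum_cons, Multiset.card_cons, Multiset.map_cons, Nat.succ_mul]; omega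
  have h2 : (s.map (· - t)).sum ≤ (l.map (· - t)).sum := by
    obtain ⟨u, hu⟩ := Multiset.le_iff_exists_add.1 hs
    have : ((l : Multiset ℕ).map (· - t)).sum = (s.map (· - t)).sum + (u.map (· - t)).sum := by rw [hu]; simp
    rw [Multiset.map_coe, Multiset.sum_coe] at this
    omega
  have h3 := h1 s
  have h4 : Multiset.card s * t ≤ k * t := Nat.mul_le_mul_right _ hk
  omega

variable (G : SimpleGraph V)

theorem degSeq_sorted : (degSeq G).Pairwise (· ≥ ·) := Multiset.pairwise_sort _ _

open Classical in
theorem degSeq_coe : (degSeq G : Multiset ℕ) = univ.val.map fun v => G.degree v := Multiset.sort_eq _ _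

theorem degSeq_length : (degSeq G).length = Fintype.card V := by
  classical
  have := congrArg Multiset.card (degSeq_coe G)
  simpa using this

open Classical in
theorem degSeq_sum : (degSeq G).sum = ∑ v, G.degree v := by
  have := congrArg Multiset.sum (degSeq_coe G)
  simpa using this

open Classical in
theorem le_degSeq (D : Finset V) {k : ℕ} (hk : D.card ≤ k) : ∑ v ∈ D, G.degree v ≤ ((degSeq G).take k).sum := by
  refine sum_le_top (degSeq_sorted G) (s := D.val.map fun v => G.degree v) ?_ (by simpa using hk)
  rw [degSeq_coe]
  exact Multiset.map_le_map (Finset.val_le_iff.2 (subset_univ D))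

variable {G}

theorem sub_nonempty (h : NoIsolated G) : Fintype.card V ≤ ((degSeq G).take (Fintype.card V)).sum := by
  classical
  rw [List.take_of_length_le (degSeq_length G).le, degSeq_sum, ← Finset.card_univ, Finset.card_eq_sum_ones]
  refine Finset.sum_le_sum fun v _ => ?_
  obtain ⟨u, hu⟩ := h v
  exact (G.degree_pos_iff_exists_adj v).2 ⟨u, hu⟩

theorem subTotal_spec (h : NoIsolated G) : Fintype.card V ≤ ((degSeq G).take (subTotal G)).sum :=
  Nat.sInf_mem (s := {k | Fintype.card V ≤ ((degSeq G).take k).sum}) ⟨_, sub_nonempty h⟩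

theorem subTotal_le {k : ℕ} (h : Fintype.card V ≤ ((degSeq G).take k).sum) : subTotal G ≤ k := Nat.sInf_le h

open Classical in
theorem subTotal_le_card {D : Finset V} (h : Fintype.card V ≤ ∑ v ∈ D, G.degree v) : subTotal G ≤ D.card :=
  subTotal_le (h.trans (le_degSeq G D le_rfl))

theorem take_mono (l : List ℕ) {j k : ℕ} (h : j ≤ k) : (l.take j).sum ≤ (l.take k).sum := by
  induction l generalizing j k with
  | nil => simp
  | cons x l ih =>
    cases k with
    | zero => obtain rfl : j = 0 := by omega
              simp
    | succ k =>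
      cases j with
      | zero => simp
      | succ j => simpa using ih (Nat.le_of_succ_le_succ h)

theorem le_subTotal_iff (h : NoIsolated G) {c : ℕ} :
    c ≤ subTotal G ↔ c = 0 ∨ ((degSeq G).take (c - 1)).sum < Fintype.card V := by
  constructor
  · intro hc
    by_contra hh
    push Not at hh
    have := subTotal_le (G := G) hh.2
    omega
  · rintro (rfl | hc)
    · exact Nat.zero_le _
    · by_contra hh
      have h1 := subTotal_spec h
      have h2 := take_mono (degSeq G) (j := subTotal G) (k := c - 1) (by omega)
      omega

open Classical in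
theorem le_subTotal (h : NoIsolated G) {c M : ℕ} (hM : ∀ v, G.degree v ≤ M) (hc : (c - 1) * M < Fintype.card V) :
    c ≤ subTotal G := by
  refine (le_subTotal_iff h).2 (.inr (lt_of_le_of_lt ((List.sum_le_card_nsmul _ M ?_)) (lt_of_le_of_lt ?_ hc)))
  · intro x hx
    have h1 : x ∈ (degSeq G : Multiset ℕ) := List.mem_of_mem_take hx
    rw [degSeq_coe] at h1
    obtain ⟨v, -, rfl⟩ := Multiset.mem_map.1 h1
    exact hM v
  · rw [smul_eq_mul]
    exact Nat.mul_le_mul_right _ (by simp)

open Classical in
theorem IsTotalDom.card_le {D : Finset V} (h : IsTotalDom G D) : Fintype.card V ≤ ∑ v ∈ D, G.degree v := by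
  have : (univ : Finset V) ⊆ D.biUnion fun u => G.neighborFinset u := fun v _ => by
    obtain ⟨u, hu, h1⟩ := h v
    exact mem_biUnion.2 ⟨u, hu, by simpa using h1.symm⟩
  exact (Finset.card_le_card this).trans (card_biUnion_le.trans (by simp))

theorem IsTotalDom.sub_le {D : Finset V} (h : IsTotalDom G D) : subTotal G ≤ D.card := subTotal_le_card h.card_le

theorem totalDom_spec (h : NoIsolated G) : ∃ D : Finset V, IsTotalDom G D ∧ D.card = totalDom G :=
  Nat.sInf_mem (s := {k | ∃ D : Finset V, IsTotalDom G D ∧ D.card = k})
    ⟨_, univ, fun v => let ⟨u, hu⟩ := h v; ⟨u, mem_univ _, hu⟩, rfl⟩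

theorem totalDom_le {D : Finset V} (h : IsTotalDom G D) : totalDom G ≤ D.card := Nat.sInf_le ⟨D, h, rfl⟩

theorem sub_le_total (h : NoIsolated G) : subTotal G ≤ totalDom G := by
  obtain ⟨D, h1, h2⟩ := totalDom_spec h
  exact h2 ▸ h1.sub_le

theorem eq_iff (h : NoIsolated G) : totalDom G = subTotal G ↔ ∃ D, IsTotalDom G D ∧ D.card ≤ subTotal G := by
  constructor
  · intro e
    obtain ⟨D, h1, h2⟩ := totalDom_spec h
    exact ⟨D, h1, by rw [h2, e]⟩
  · rintro ⟨D, h1, h2⟩
    exact le_antisymm ((totalDom_le h1).trans h2) (sub_le_total h)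

end Pool.Agent.Run7.h878.TD
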