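import Pool.Agent.Run7.h878.TD.Mem

/-!
# NP-hardness of the equality problem

For a 3-CNF with `m` clauses put `K = 3 m + 2`. The graph has a clique of `2 K` literal vertices, for every variable
`i < K` a block of `B` vertices adjacent to exactly the two literals of `i`, and for every clause a vertex adjacent to
its literals. The number `B` is so large that the sub-total domination number is `K`.
-/

namespace Pool.Agent.Run7.h878.TD

open Pool.Agent.Lib.CX Finset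

section named
variable {V : Type} [DecidableEq V] (vs : List V) (es : List (V × V))

/-- the graph on the names -/
abbrev nm (es : List (V × V)) : SimpleGraph V := SimpleGraph.fromRel fun u v : V => (u, v) ∈ es

theorem mkGr_adj (u v : Fin (mkGr vs es).n) :
    (mkGr vs es).G.Adj u v ↔ (nm es).Adj (mkGrEquiv vs es u).1 (mkGrEquiv vs es v).1 :=
  (mkGrIso vs es).map_rel_iff.symm

open Classical in
theorem mkGr_degree (i : Fin (mkGr vs es).n) :
    (mkGr vs es).G.degree i = (vs.toFinset.filter fun y => (nm es).Adj (mkGrEquiv vs es i).1 y).card := by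
  rw [← SimpleGraph.card_neighborFinset_eq_degree]
  apply Finset.card_bij (fun j _ => (mkGrEquiv vs es j).1)
  · intro j hj
    rw [SimpleGraph.mem_neighborFinset] at hj
    exact mem_filter.2 ⟨List.mem_toFinset.2 (mkGrEquiv vs es j).2, (mkGr_adj vs es i j).1 hj⟩
  · intro j _ l _ h
    exact (mkGrEquiv vs es).injective (Subtype.ext h)
  · intro y hy
    obtain ⟨h1, h2⟩ := mem_filter.1 hy
    rw [List.mem_toFinset] at h1
    refine ⟨(mkGrEquiv vs es).symm ⟨y, h1⟩, ?_, by simp⟩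
    rw [SimpleGraph.mem_neighborFinset, mkGr_adj]
    simpa using h2

theorem mkGr_card : Fintype.card (Fin (mkGr vs es).n) = vs.toFinset.card := by
  rw [Fintype.card_fin, mkGr_n, List.card_toFinset]

theorem mkGr_totalDom (c : ℕ) : (∃ D, IsTotalDom (mkGr vs es).G D ∧ D.card ≤ c) ↔
    ∃ D : Finset V, (∀ x ∈ D, x ∈ vs) ∧ (∀ v ∈ vs, ∃ u ∈ D, (nm es).Adj v u) ∧ D.card ≤ c := by
  constructor
  · rintro ⟨D, h1, h2⟩
    refine ⟨D.image fun i => (mkGrEquiv vs es i).1, ?_, fun v hv => ?_, card_image_le.trans h2⟩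
    · intro x hx
      obtain ⟨i, -, rfl⟩ := mem_image.1 hx
      exact (mkGrEquiv vs es i).2
    · obtain ⟨u, hu, h3⟩ := h1 ((mkGrEquiv vs es).symm ⟨v, hv⟩)
      rw [mkGr_adj] at h3
      exact ⟨_, mem_image_of_mem _ hu, by simpa using h3⟩
  · rintro ⟨D, h1, h2, h3⟩
    refine ⟨univ.filter fun i => (mkGrEquiv vs es i).1 ∈ D, fun v => ?_, le_trans ?_ h3⟩
    · obtain ⟨u, hu, h4⟩ := h2 _ (mkGrEquiv vs es v).2
      refine ⟨(mkGrEquiv vs es).symm ⟨u, h1 u hu⟩, by simpa using hu, ?_⟩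
      rw [mkGr_adj]
      simpa using h4
    · exact card_le_card_of_injOn (fun i => (mkGrEquiv vs es i).1) (fun i hi => (mem_filter.1 hi).2)
        fun i _ j _ h => (mkGrEquiv vs es).injective (Subtype.ext h)

end named

variable (φ : List (Cl3 ℕ))

/-- number of variables -/
def K : ℕ := 3 * φ.length + 2
/-- size of a block -/
def Bk : ℕ := K φ * (2 * K φ + φ.length)

def litV : List (ℕ × ℕ × ℕ) := (List.range (K φ) ×ˢ List.range 2).map fun p => (0, p)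
def blkV : List (ℕ × ℕ × ℕ) := (List.range (K φ) ×ˢ List.range (Bk φ)).map fun p => (1, p)
def clsV : List (ℕ × ℕ × ℕ) := (List.range φ.length).map fun j => (2, j, 0)
/-- the vertices -/
def vs : List (ℕ × ℕ × ℕ) := litV φ ++ (blkV φ ++ clsV φ)

def litE : List ((ℕ × ℕ × ℕ) × (ℕ × ℕ × ℕ)) := litV φ ×ˢ litV φ
def blkE : List ((ℕ × ℕ × ℕ) × (ℕ × ℕ × ℕ)) :=
  ((List.range (K φ) ×ˢ List.range (Bk φ)) ×ˢ List.range 2).map fun p => ((1, p.1), (0, p.1.1, p.2))
def lits (C : Cl3 ℕ) : List (ℕ × Bool) := [C.1, C.2.1, C.2.2]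
def clsE : List ((ℕ × ℕ × ℕ) × (ℕ × ℕ × ℕ)) :=
  φ.zipIdx.flatMap fun p => (lits p.1).map fun l => ((2, p.2, 0), (0, l.1 % K φ, l.2.toNat))
/-- the edges -/
def es : List ((ℕ × ℕ × ℕ) × (ℕ × ℕ × ℕ)) := litE φ ++ (blkE φ ++ clsE φ)

theorem mem_litV (x : ℕ × ℕ × ℕ) : x ∈ litV φ ↔ x.1 = 0 ∧ x.2.1 < K φ ∧ x.2.2 < 2 := by
  obtain ⟨a, b, c⟩ := x
  simp only [litV, List.mem_map, List.mem_product, List.mem_range, Prod.exists, Prod.mk.injEq]
  constructor
  · rintro ⟨i, s, ⟨h1, h2⟩, rfl, rfl, rfl⟩; exact ⟨rfl, h1, h2⟩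
  · rintro ⟨rfl, h1, h2⟩; exact ⟨b, c, ⟨h1, h2⟩, rfl, rfl, rfl⟩

theorem mem_blkV (x : ℕ × ℕ × ℕ) : x ∈ blkV φ ↔ x.1 = 1 ∧ x.2.1 < K φ ∧ x.2.2 < Bk φ := by
  obtain ⟨a, b, c⟩ := x
  simp only [blkV, List.mem_map, List.mem_product, List.mem_range, Prod.exists, Prod.mk.injEq]
  constructor
  · rintro ⟨i, s, ⟨h1, h2⟩, rfl, rfl, rfl⟩; exact ⟨rfl, h1, h2⟩
  · rintro ⟨rfl, h1, h2⟩; exact ⟨b, c, ⟨h1, h2⟩, rfl, rfl, rfl⟩

theorem mem_clsV (x : ℕ × ℕ × ℕ) : x ∈ clsV φ ↔ x.1 = 2 ∧ x.2.1 < φ.length ∧ x.2.2 = 0 := by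
  obtain ⟨a, b, c⟩ := x
  simp only [clsV, List.mem_map, List.mem_range, Prod.mk.injEq]
  constructor
  · rintro ⟨i, h1, rfl, rfl, rfl⟩; exact ⟨rfl, h1, rfl⟩
  · rintro ⟨rfl, h1, rfl⟩; exact ⟨b, h1, rfl, rfl, rfl⟩

theorem mem_litE (x y : ℕ × ℕ × ℕ) : (x, y) ∈ litE φ ↔ x ∈ litV φ ∧ y ∈ litV φ := List.mem_product

theorem mem_blkE (x y : ℕ × ℕ × ℕ) : (x, y) ∈ blkE φ ↔ x ∈ blkV φ ∧ ∃ s < 2, y = (0, x.2.1, s) := by
  obtain ⟨a, b, c⟩ := x
  simp only [blkE, blkV, List.mem_map, List.mem_product, List.mem_range, Prod.exists, Prod.mk.injEq]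
  constructor
  · rintro ⟨i, t, s, ⟨⟨h1, h2⟩, h3⟩, ⟨rfl, rfl, rfl⟩, rfl⟩; exact ⟨⟨_, _, ⟨h1, h2⟩, rfl, rfl, rfl⟩, s, h3, rfl⟩
  · rintro ⟨⟨i, t, ⟨h1, h2⟩, rfl, rfl, rfl⟩, s, h3, rfl⟩; exact ⟨_, _, s, ⟨⟨h1, h2⟩, h3⟩, ⟨rfl, rfl, rfl⟩, rfl⟩

theorem mem_clsE (x y : ℕ × ℕ × ℕ) : (x, y) ∈ clsE φ ↔
    ∃ C, x.1 = 2 ∧ φ[x.2.1]? = some C ∧ x.2.2 = 0 ∧ ∃ l ∈ lits C, y = (0, l.1 % K φ, l.2.toNat) := by
  obtain ⟨a, b, c⟩ := x
  simp only [clsE, List.mem_flatMap, List.mem_map]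
  constructor
  · rintro ⟨⟨C, j⟩, h1, l, h2, h⟩
    rw [List.mk_mem_zipIdx_iff_getElem?] at h1
    obtain ⟨h3, h4⟩ := Prod.mk.inj h
    obtain ⟨rfl, h5⟩ := Prod.mk.inj h3
    obtain ⟨rfl, rfl⟩ := Prod.mk.inj h5
    exact ⟨C, rfl, h1, rfl, l, h2, h4.symm⟩
  · rintro ⟨C, rfl, h1, rfl, l, h2, rfl⟩
    exact ⟨(C, b), List.mk_mem_zipIdx_iff_getElem?.2 h1, l, h2, rfl⟩

theorem K_pos : 0 < K φ := by unfold K; omega

/-- neighbours of a literal vertex include the other literals and the block -/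
theorem adj_lit {x y : ℕ × ℕ × ℕ} (hx : x ∈ litV φ) (hy : y ∈ litV φ) (h : x ≠ y) : (nm (es φ)).Adj x y := by
  rw [SimpleGraph.fromRel_adj]
  exact ⟨h, .inl (by simp [es, mem_litE, hx, hy])⟩

theorem adj_blk {x y : ℕ × ℕ × ℕ} (hx : x ∈ blkV φ) : (nm (es φ)).Adj x y ↔ ∃ s < 2, y = (0, x.2.1, s) := by
  obtain ⟨a, b, c⟩ := x
  have h0 := (mem_blkV φ _).1 hx
  obtain ⟨rfl, h1, h2⟩ : a = 1 ∧ b < K φ ∧ c < Bk φ := h0
  rw [SimpleGraph.fromRel_adj]
  simp only [es, List.mem_append, mem_litE, mem_blkE, mem_clsE, hx, true_and]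
  constructor
  · rintro ⟨-, (⟨h, -⟩ | h | ⟨C, h, -⟩) | (⟨-, h⟩ | ⟨-, s, -, h⟩ | ⟨C, -, -, -, l, -, h⟩)⟩
    · simp [mem_litV] at h
    · exact h
    · simp at h
    · simp [mem_litV] at h
    · simp at h
    · simp at h
  · rintro ⟨s, hs, rfl⟩
    exact ⟨by simp, .inl (.inr (.inl ⟨s, hs, rfl⟩))⟩

theorem adj_cls {x y : ℕ × ℕ × ℕ} (hx : x ∈ clsV φ) : (nm (es φ)).Adj x y ↔
    ∃ C, φ[x.2.1]? = some C ∧ ∃ l ∈ lits C, y = (0, l.1 % K φ, l.2.toNat) := by
  obtain ⟨a, b, c⟩ := x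
  have h0 := (mem_clsV φ _).1 hx
  obtain ⟨rfl, h1, rfl⟩ : a = 2 ∧ b < φ.length ∧ c = 0 := h0
  rw [SimpleGraph.fromRel_adj]
  simp only [es, List.mem_append, mem_litE, mem_blkE, mem_clsE]
  constructor
  · rintro ⟨-, (⟨h, -⟩ | ⟨h, -⟩ | ⟨C, -, h1, -, h2⟩) | (⟨-, h⟩ | ⟨-, s, -, h⟩ | ⟨C, -, -, -, l, -, h⟩)⟩
    · simp [mem_litV] at h
    · simp [mem_blkV] at h
    · exact ⟨C, h1, h2⟩
    · simp [mem_litV] at h
    · simp at h
    · simp at h
  · rintro ⟨C, h1, l, h2, rfl⟩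
    exact ⟨by simp, .inl (.inr (.inr ⟨C, trivial, h1, trivial, l, h2, rfl⟩))⟩

theorem mem_vs (x : ℕ × ℕ × ℕ) : x ∈ vs φ ↔ x ∈ litV φ ∨ x ∈ blkV φ ∨ x ∈ clsV φ := by simp [vs]

theorem nodup_litV : (litV φ).Nodup :=
  (List.nodup_range.product List.nodup_range).map fun _ _ h => (Prod.mk.inj h).2
theorem nodup_blkV : (blkV φ).Nodup :=
  (List.nodup_range.product List.nodup_range).map fun _ _ h => (Prod.mk.inj h).2
theorem nodup_clsV : (clsV φ).Nodup := List.nodup_range.map fun _ _ h => (Prod.mk.inj (Prod.mk.inj h).2).1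

theorem card_vs : (vs φ).toFinset.card = 2 * K φ + K φ * Bk φ + φ.length := by
  rw [List.toFinset_card_of_nodup]
  · simp only [vs, litV, blkV, clsV, List.length_append, List.length_map, List.length_product, List.length_range]
    ring
  · rw [vs, List.nodup_append', List.nodup_append']
    refine ⟨nodup_litV φ, ⟨nodup_blkV φ, nodup_clsV φ, ?_⟩, ?_⟩
    · intro x h1 h2
      have h3 := ((mem_blkV φ x).1 h1).1
      have h4 := ((mem_clsV φ x).1 h2).1
      omega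
    · intro x h1 h2
      have h3 := ((mem_litV φ x).1 h1).1
      rcases List.mem_append.1 h2 with h2 | h2
      · have h4 := ((mem_blkV φ x).1 h2).1
        omega
      · have h4 := ((mem_clsV φ x).1 h2).1
        omega

open Classical in
theorem deg_upper {x : ℕ × ℕ × ℕ} (hx : x ∈ vs φ) :
    ((vs φ).toFinset.filter fun y => (nm (es φ)).Adj x y).card ≤ 2 * K φ + Bk φ + φ.length := by
  have h1 : ((vs φ).toFinset.filter fun y => (nm (es φ)).Adj x y) ⊆
      (litV φ).toFinset ∪ ((List.range (Bk φ)).map fun t => (1, x.2.1, t)).toFinset ∪ (clsV φ).toFinset := by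
    intro y hy
    obtain ⟨h1, h2⟩ := mem_filter.1 hy
    rw [List.mem_toFinset, mem_vs] at h1
    rw [mem_union, mem_union, List.mem_toFinset, List.mem_toFinset, List.mem_toFinset]
    rcases h1 with h1 | h1 | h1
    · exact .inl (.inl h1)
    · refine .inl (.inr ?_)
      obtain ⟨s, -, rfl⟩ := (adj_blk φ h1).1 h2.symm
      have h3 := (mem_blkV φ y).1 h1
      exact List.mem_map.2 ⟨y.2.2, List.mem_range.2 h3.2.2, Prod.ext h3.1.symm rfl⟩
    · exact .inr h1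
  refine (card_le_card h1).trans ((card_union_le _ _).trans (Nat.add_le_add ((card_union_le _ _).trans
    (Nat.add_le_add ?_ ?_)) ?_))
  · refine (List.toFinset_card_le _).trans ?_
    simp [litV, List.length_product, mul_comm]
  · refine (List.toFinset_card_le _).trans ?_
    simp
  · refine (List.toFinset_card_le _).trans ?_
    simp [clsV]

open Classical in
theorem deg_lower {x : ℕ × ℕ × ℕ} (hx : x ∈ litV φ) :
    2 * K φ - 1 + Bk φ ≤ ((vs φ).toFinset.filter fun y => (nm (es φ)).Adj x y).card := by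
  have h1 : ((litV φ).toFinset.erase x) ∪ ((List.range (Bk φ)).map fun t => (1, x.2.1, t)).toFinset ⊆
      ((vs φ).toFinset.filter fun y => (nm (es φ)).Adj x y) := by
    intro y hy
    rw [mem_union, mem_erase, List.mem_toFinset, List.mem_toFinset] at hy
    rw [mem_filter, List.mem_toFinset, mem_vs]
    rcases hy with ⟨h1, h2⟩ | h
    · exact ⟨.inl h2, adj_lit φ hx h2 h1.symm⟩
    · obtain ⟨t, ht, rfl⟩ := List.mem_map.1 h
      have h2 := (mem_litV φ x).1 hx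
      have h3 : (1, x.2.1, t) ∈ blkV φ := (mem_blkV φ _).2 ⟨rfl, h2.2.1, List.mem_range.1 ht⟩
      refine ⟨.inr (.inl h3), ((adj_blk φ h3).2 ⟨x.2.2, h2.2.2, ?_⟩).symm⟩
      exact Prod.ext h2.1 rfl
  refine le_trans ?_ (card_le_card h1)
  rw [card_union_of_disjoint, card_erase_of_mem (List.mem_toFinset.2 hx), List.toFinset_card_of_nodup (nodup_litV φ),
    List.toFinset_card_of_nodup (List.nodup_range.map fun _ _ h => (Prod.mk.inj (Prod.mk.inj h).2).2)]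
  · simp [litV, List.length_product, mul_comm]
  · rw [disjoint_left]
    intro y h1 h2
    rw [mem_erase, List.mem_toFinset, mem_litV] at h1
    rw [List.mem_toFinset] at h2
    obtain ⟨t, -, rfl⟩ := List.mem_map.1 h2
    simp at h1

/-- the graph -/
def gr : Gr := mkGr (vs φ) (es φ)

theorem noIso : NoIsolated (gr φ).G := by
  intro i
  obtain ⟨x, hx⟩ : ∃ x, mkGrEquiv (vs φ) (es φ) i = x := ⟨_, rfl⟩
  have key : ∃ y ∈ vs φ, (nm (es φ)).Adj x.1 y := by
    have hK : 2 ≤ K φ := by unfold K; omega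
    rcases (mem_vs φ _).1 x.2 with h | h | h
    · have h1 := (mem_litV φ _).1 h
      have h2 : ((0, x.1.2.1, 1 - x.1.2.2) : ℕ × ℕ × ℕ) ∈ litV φ := (mem_litV φ _).2 ⟨rfl, h1.2.1, by show 1 - _ < 2; omega⟩
      refine ⟨_, (mem_vs φ _).2 (.inl h2), adj_lit φ h h2 fun e => ?_⟩
      have := congrArg (fun z : ℕ × ℕ × ℕ => z.2.2) e
      simp only at this
      omega
    · have h1 := (mem_blkV φ _).1 h
      exact ⟨(0, x.1.2.1, 0), (mem_vs φ _).2 (.inl ((mem_litV φ _).2 ⟨rfl, h1.2.1, by simp⟩)),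
        (adj_blk φ h).2 ⟨0, by omega, rfl⟩⟩
    · have h1 := (mem_clsV φ _).1 h
      refine ⟨(0, φ[x.1.2.1].1.1 % K φ, φ[x.1.2.1].1.2.toNat), (mem_vs φ _).2 (.inl ((mem_litV φ _).2
        ⟨rfl, Nat.mod_lt _ (by omega), by cases φ[x.1.2.1].1.2 <;> simp⟩)),
        (adj_cls φ h).2 ⟨φ[x.1.2.1], List.getElem?_eq_getElem h1.2.1, φ[x.1.2.1].1, by simp [lits], rfl⟩⟩
  obtain ⟨y, h1, h2⟩ := key
  refine ⟨(mkGrEquiv (vs φ) (es φ)).symm ⟨y, h1⟩, (mkGr_adj _ _ _ _).2 ?_⟩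
  rw [hx]
  simpa using h2

theorem sub_eq : subTotal (gr φ).G = K φ := by
  classical
  have hn : Fintype.card (Fin (gr φ).n) = 2 * K φ + K φ * Bk φ + φ.length := (mkGr_card _ _).trans (card_vs φ)
  apply le_antisymm
  · have hl : ∀ i : Fin (K φ), ((0, i.1, 0) : ℕ × ℕ × ℕ) ∈ litV φ := fun i =>
      (mem_litV φ _).2 ⟨rfl, i.2, by simp⟩
    let D : Finset (Fin (gr φ).n) := univ.image fun i : Fin (K φ) =>
      (mkGrEquiv (vs φ) (es φ)).symm ⟨(0, i.1, 0), (mem_vs φ _).2 (.inl (hl i))⟩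
    have hD : D.card = K φ := by
      rw [card_image_of_injective, card_univ, Fintype.card_fin]
      intro i j h
      have := (mkGrEquiv (vs φ) (es φ)).symm.injective h
      simpa [Fin.ext_iff] using this
    refine (subTotal_le_card (D := D) ?_).trans_eq hD
    have : ∀ v ∈ D, 2 * K φ - 1 + Bk φ ≤ (gr φ).G.degree v := by
      intro v hv
      obtain ⟨i, -, rfl⟩ := mem_image.1 hv
      refine (deg_lower φ (hl i)).trans_eq ?_
      refine Eq.trans ?_ (mkGr_degree (vs φ) (es φ) _).symm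
      simp
    refine le_trans ?_ (sum_le_sum this)
    rw [hn, sum_const, hD, smul_eq_mul]
    have : K φ = 3 * φ.length + 2 := rfl
    have h2 : 2 * K φ + φ.length ≤ K φ * (2 * K φ - 1) := by
      rw [this]
      generalize φ.length = m
      have : 2 * (3 * m + 2) - 1 = 6 * m + 3 := by omega
      rw [this]
      nlinarith
    rw [mul_add]
    omega
  · refine le_subTotal (M := 2 * K φ + Bk φ + φ.length) (noIso φ) (fun i => ?_) ?_
    · refine (le_of_eq ?_).trans (deg_upper φ (mkGrEquiv (vs φ) (es φ) i).2)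
      refine Eq.trans ?_ ((mkGr_degree (vs φ) (es φ) i).trans ?_) <;> congr
    · rw [hn]
      obtain ⟨k, hk⟩ : ∃ k, K φ = k + 1 := ⟨K φ - 1, by have := K_pos φ; omega⟩
      have h3 : Bk φ = (k + 1) * (2 * K φ + φ.length) := by rw [← hk]; rfl
      rw [h3, hk, Nat.add_sub_cancel]
      have hp : 0 < 2 * (k + 1) + φ.length := by omega
      revert hp
      generalize 2 * (k + 1) = p
      generalize φ.length = m
      intro hp
      have e1 : k * (p + (k + 1) * (p + m) + m) = k * (k + 2) * (p + m) := by ring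
      have e2 : p + (k + 1) * ((k + 1) * (p + m)) + m = (k * (k + 2) + 2) * (p + m) := by ring
      rw [e1, e2]
      exact Nat.mul_lt_mul_of_pos_right (by omega) hp

theorem dom_iff (hφ : ∀ C ∈ φ, ∀ x ∈ C.vars, x < 3 * φ.length) :
    Sat3 φ ↔ ∃ D : Finset (ℕ × ℕ × ℕ), (∀ x ∈ D, x ∈ vs φ) ∧ (∀ v ∈ vs φ, ∃ u ∈ D, (nm (es φ)).Adj v u) ∧
      D.card ≤ K φ := by
  have hK : 2 ≤ K φ := by unfold K; omega
  have hB : 0 < Bk φ := Nat.mul_pos (K_pos φ) (by omega)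
  have hlt : ∀ C ∈ φ, ∀ l ∈ lits C, l.1 < K φ := by
    intro C hC l hl
    have h1 : l.1 ∈ C.vars := by
      simp only [lits, List.mem_cons, List.not_mem_nil, or_false] at hl
      rcases hl with rfl | rfl | rfl <;> simp [Cl3.vars]
    have := hφ C hC _ h1
    unfold K
    omega
  have hok : ∀ (v : ℕ → Bool) (C : Cl3 ℕ), C.ok v ↔ ∃ l ∈ lits C, v l.1 = l.2 := by
    intro v C
    simp [Cl3.ok, lits]
  constructor
  · rintro ⟨v, hv⟩
    refine ⟨(range (K φ)).image fun i => (0, i, (v i).toNat), ?_, ?_, card_image_le.trans (by simp)⟩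
    · intro x hx
      obtain ⟨i, hi, rfl⟩ := mem_image.1 hx
      exact (mem_vs φ _).2 (.inl ((mem_litV φ _).2 ⟨rfl, by simpa using hi, by cases v i <;> simp⟩))
    · intro x hx
      have hm : ∀ i < K φ, ((0, i, (v i).toNat) : ℕ × ℕ × ℕ) ∈ (range (K φ)).image fun i => (0, i, (v i).toNat) :=
        fun i hi => mem_image_of_mem _ (mem_range.2 hi)
      rcases (mem_vs φ x).1 hx with h | h | h
      · have h1 := (mem_litV φ _).1 h
        obtain ⟨i, hi, hne⟩ : ∃ i < K φ, i ≠ x.2.1 := by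
          by_cases h0 : x.2.1 = 0
          · exact ⟨1, by omega, by omega⟩
          · exact ⟨0, by omega, fun e => h0 e.symm⟩
        refine ⟨_, hm i hi, adj_lit φ h ((mem_litV φ _).2 ⟨rfl, hi, by cases v i <;> simp⟩) fun e => hne ?_⟩
        rw [e]
      · have h1 := (mem_blkV φ _).1 h
        exact ⟨_, hm _ h1.2.1, (adj_blk φ h).2 ⟨_, by cases v x.2.1 <;> simp, rfl⟩⟩
      · have h1 := (mem_clsV φ _).1 h
        have hC : φ[x.2.1] ∈ φ := List.getElem_mem _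
        obtain ⟨l, hl, h2⟩ := (hok v _).1 (hv _ hC)
        refine ⟨_, hm _ (hlt _ hC l hl), (adj_cls φ h).2 ⟨_, List.getElem?_eq_getElem h1.2.1, l, hl, ?_⟩⟩
        rw [h2, Nat.mod_eq_of_lt (hlt _ hC l hl)]
  · rintro ⟨D, h1, h2, h3⟩
    have h4 : ∀ i < K φ, ∃ s < 2, (0, i, s) ∈ D := by
      intro i hi
      have hb : (1, i, 0) ∈ blkV φ := (mem_blkV φ _).2 ⟨rfl, hi, hB⟩
      obtain ⟨u, hu, h5⟩ := h2 _ ((mem_vs φ _).2 (.inr (.inl hb)))
      obtain ⟨s, hs, rfl⟩ := (adj_blk φ hb).1 h5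
      exact ⟨s, hs, hu⟩
    choose! g hg1 hg2 using h4
    have h5 : (range (K φ)).image (fun i => (0, i, g i)) = D := by
      refine eq_of_subset_of_card_le ?_ ?_
      · intro x hx
        obtain ⟨i, hi, rfl⟩ := mem_image.1 hx
        exact hg2 i (by simpa using hi)
      · rw [card_image_of_injective _ fun i j h => (Prod.mk.inj (Prod.mk.inj h).2).1]
        simpa using h3
    refine ⟨fun i => decide (g i = 1), fun C hC => (hok _ _).2 ?_⟩
    obtain ⟨j, hj, rfl⟩ := List.mem_iff_getElem.1 hC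
    have hc : (2, j, 0) ∈ clsV φ := (mem_clsV φ _).2 ⟨rfl, hj, rfl⟩
    obtain ⟨u, hu, h6⟩ := h2 _ ((mem_vs φ _).2 (.inr (.inr hc)))
    obtain ⟨C', hC', l, hl, rfl⟩ := (adj_cls φ hc).1 h6
    obtain rfl : φ[j] = C' := Option.some_injective _ ((List.getElem?_eq_getElem hj).symm.trans hC')
    rw [← h5] at hu
    obtain ⟨i, hi, h7⟩ := mem_image.1 hu
    obtain ⟨-, h8, h9⟩ : 0 = 0 ∧ i = l.1 % K φ ∧ g i = l.2.toNat := by simpa using h7
    rw [Nat.mod_eq_of_lt (hlt _ hC l hl)] at h8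
    refine ⟨l, hl, ?_⟩
    rw [← h8, h9]
    cases l.2 <;> simp

theorem hard_iff (hφ : ∀ C ∈ φ, ∀ x ∈ C.vars, x < 3 * φ.length) :
    Sat3 φ ↔ totalDom (gr φ).G = subTotal (gr φ).G := by
  rw [eq_iff (noIso φ), sub_eq, dom_iff φ hφ, gr, mkGr_totalDom]

set_option synthInstance.maxSize 1000 in
theorem pt_gr : PT gr := by
  unfold gr vs es litE blkE clsE litV blkV clsV Bk K lits
  fun_prop

/-- graphs without isolated vertices -/
abbrev GrT := {a : Gr // NoIsolated a.G}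

/-- the equality problem on graphs without isolated vertices -/
def EqT (a : GrT) : Prop := totalDom a.1.G = subTotal a.1.G

theorem eqT_hard : NPHard EqT :=
  NPHard.of_sat3 (fun φ => (⟨gr φ, noIso φ⟩ : GrT)) (pt_gr.subtype noIso) fun φ hφ => hard_iff φ hφ

end Pool.Agent.Run7.h878.TD
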