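import Pool.Agent.Run7.h878.TD.Defs

/-!
# Membership in NP of the equality problem
-/

namespace Pool.Agent.Run7.h878.TD

open Pool.Agent.Lib.CX Finset

/-- number of neighbours computed with lists -/
def degL (a : Gr) (v : ℕ) : ℕ := (List.range a.n).countP fun u => a.adjB v u

def cnt (a : Gr) (y : List Bool) : ℕ := (List.range a.n).countP fun u => y.getD u false

def Check (a : Gr) (y : List Bool) : Prop :=
  (∀ v < a.n, ∃ u < a.n, y.getD u false = true ∧ a.adjB v u = true) ∧
    (cnt a y = 0 ∨ ∃ t < a.n + 1, (cnt a y - 1) * t + ((List.range a.n).map fun v => degL a v - t).sum < a.n)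

instance (a y) : Decidable (Check a y) := by unfold Check; infer_instance

theorem countP_range (n : ℕ) (p : ℕ → Bool) : (List.range n).countP p = (univ.filter fun i : Fin n => p i = true).card := by
  rw [List.countP_eq_length_filter, ← List.toFinset_card_of_nodup (List.nodup_range.filter _)]
  symm
  apply Finset.card_bij (fun i _ => i.1)
  · intro i hi; simpa using hi
  · intro i _ j _ h; exact Fin.ext h
  · intro x hx
    simp at hx
    exact ⟨⟨x, hx.1⟩, by simpa using hx.2, rfl⟩

open Classical in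
theorem degL_eq (a : Gr) (v : Fin a.n) : degL a v = a.G.degree v := by
  rw [degL, countP_range, ← SimpleGraph.card_neighborFinset_eq_degree]
  congr 1
  ext i
  simp [a.adjB_iff]

theorem sum_range (n : ℕ) (f : ℕ → ℕ) : ((List.range n).map f).sum = ∑ i : Fin n, f i := by
  rw [Finset.sum_fin_eq_sum_range, Finset.sum_range]
  simp [List.sum_range_succ, ← Finset.sum_range]
  rfl

open Classical in
theorem sum_deg (a : Gr) (t : ℕ) :
    ((List.range a.n).map fun v => degL a v - t).sum = ((degSeq a.G).map (· - t)).sum := by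
  rw [sum_range]
  have := congrArg (fun s : Multiset ℕ => (s.map (· - t)).sum) (degSeq_coe a.G)
  simp only [Multiset.map_coe, Multiset.sum_coe, Multiset.map_map, Function.comp_def] at this
  rw [this]
  exact Finset.sum_congr rfl fun v _ => by rw [degL_eq]

theorem headD_le (a : Gr) : (degSeq a.G).headD 0 ≤ a.n := by
  classical
  rcases h : degSeq a.G with _ | ⟨x, l⟩
  · simp
  · have h1 : x ∈ (degSeq a.G : Multiset ℕ) := by rw [h]; simp
    rw [degSeq_coe] at h1
    obtain ⟨v, -, rfl⟩ := Multiset.mem_map.1 h1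
    simpa using (a.G.degree_lt_card_verts v).le

theorem check_iff (a : Gr) (y : List Bool) :
    Check a y ↔ NoIsolated a.G ∧ IsTotalDom a.G (univ.filter fun i : Fin a.n => y.getD i false = true) ∧
      (univ.filter fun i : Fin a.n => y.getD i false = true).card ≤ subTotal a.G := by
  rw [← countP_range a.n fun i => y.getD i false]
  change _ ↔ _ ∧ _ ∧ cnt a y ≤ _
  have h1 : (∀ v < a.n, ∃ u < a.n, y.getD u false = true ∧ a.adjB v u = true) ↔
      IsTotalDom a.G (univ.filter fun i : Fin a.n => y.getD i false = true) := by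
    constructor
    · intro h v
      obtain ⟨u, hu, h2, h3⟩ := h v v.2
      exact ⟨⟨u, hu⟩, by simpa using h2, (a.adjB_iff _ _).1 h3⟩
    · intro h v hv
      obtain ⟨u, hu, h2⟩ := h ⟨v, hv⟩
      exact ⟨u, u.2, by simpa using hu, (a.adjB_iff ⟨v, hv⟩ u).2 h2⟩
  rw [Check, h1]
  constructor
  · rintro ⟨h2, h3⟩
    have h4 : NoIsolated a.G := fun v => let ⟨u, _, hu⟩ := h2 v; ⟨u, hu⟩
    refine ⟨h4, h2, (le_subTotal_iff h4).2 (h3.imp_right ?_)⟩
    rintro ⟨t, -, ht⟩
    rw [sum_deg] at ht
    exact ((top_le _ _ t).trans_lt ht).trans_eq (by simp)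
  · rintro ⟨h4, h2, h3⟩
    refine ⟨h2, ((le_subTotal_iff h4).1 h3).imp_right fun h5 => ?_⟩
    obtain ⟨t, h6, h7⟩ := top_ge (degSeq_sorted a.G) (cnt a y - 1)
    refine ⟨t, Nat.lt_succ_of_le (h6.trans (headD_le a)), ?_⟩
    rw [sum_deg]
    exact (h7.trans_lt h5).trans_eq (by simp)

/-- the equality problem on arbitrary graph inputs -/
def Eqn (a : Gr) : Prop := NoIsolated a.G ∧ totalDom a.G = subTotal a.G

theorem eqn_inNP : InNP Eqn := by
  refine InNP.of_cert' (γ := List Bool) Check (i := fun _ _ => inferInstance) (fun a => 3 * a.n + 2) ?_ (by fun_prop) (fun a y h => ?_) fun a h => ?_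
  · unfold Check cnt degL; fun_prop
  · rw [check_iff] at h
    exact ⟨h.1, (eq_iff h.1).2 ⟨_, h.2⟩⟩
  · obtain ⟨D, h1, h2⟩ := (eq_iff h.1).1 h.2
    refine ⟨(List.range a.n).map fun i => decide (∃ x ∈ D, x.1 = i), by rw [size_bits]; simp, ?_⟩
    rw [check_iff]
    have : (univ.filter fun i : Fin a.n => ((List.range a.n).map fun i => decide (∃ x ∈ D, x.1 = i)).getD i false = true) = D := by
      ext i
      simp [List.getD_eq_getElem?_getD, Fin.ext_iff]
      constructor
      · rintro ⟨x, hx, h⟩
        obtain rfl : x = i := Fin.ext h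
        exact hx
      · exact fun h => ⟨i, h, rfl⟩
    rw [this]
    exact ⟨h.1, h1, h2⟩

end Pool.Agent.Run7.h878.TD
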